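import Pool.Agent.E8helper64.GC.Stm

/-!
# Project GC: the form of degree `8` vanishes on the span of any four lines
-/

set_option autoImplicit false
set_option linter.unusedVariables false

namespace Pool.Agent.E8helper71.GC

open MvPolynomial Filter
open Pool.Agent.E8helper64.GC

universe u

/-- the combinatorial part -/
theorem comb : ∀ b0 b1 b2 b3 b4 b5 b6 b7 b8 b9 b10 : Bool,
    b0.toNat + b1.toNat + b2.toNat + b3.toNat + b4.toNat + b5.toNat + b6.toNat + b7.toNat +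
      b8.toNat + b9.toNat + b10.toNat ≤ 4 →
    ((!b2 && !b3) || (!b3 && !b4) || (!b5 && !b6) || (!b6 && !b7) || (!b8 && !b9) ||
      (!b9 && !b10) || (!b0 && !b2 && !b5 && !b8) || (!b1 && !b4 && !b7 && !b10) ||
      (!b0 && !b5 && !b8 && !b1 && !b7 && !b10) || (!b0 && !b2 && !b8 && !b1 && !b4 && !b10) ||
      (!b0 && !b2 && !b5 && !b1 && !b4 && !b7)) = true := by
  decide +kernel

section
variable {K : Type u} [Field K] {S : Finset (Fin 11)} {x : Fin 10 → K}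

/-- a coordinate which does not occur on the lines of `S` vanishes -/
theorem co_zero (i : Fin 10) (h : ∀ s ∈ S, i ∉ al s) (hx : x ∈ ⨆ s ∈ S, Lt K s) : x i = 0 := by
  have h1 : (⨆ s ∈ S, Lt K s) ≤ LinearMap.ker (LinearMap.proj i : (Fin 10 → K) →ₗ[K] K) := by
    refine iSup₂_le fun s hs y hy => ?_
    rw [LinearMap.mem_ker, LinearMap.proj_apply]
    exact hy.1 i (h s hs)
  have h2 := h1 hx
  rwa [LinearMap.mem_ker, LinearMap.proj_apply] at h2

/-- two coordinates are equal -/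
theorem co_eq (i k : Fin 10) (h : ∀ s ∈ S, ∀ y ∈ Lt K s, y i = y k) (hx : x ∈ ⨆ s ∈ S, Lt K s) :
    x i = x k := by
  have h1 : (⨆ s ∈ S, Lt K s) ≤ LinearMap.ker
      ((LinearMap.proj i : (Fin 10 → K) →ₗ[K] K) - LinearMap.proj k) := by
    refine iSup₂_le fun s hs y hy => ?_
    rw [LinearMap.mem_ker, LinearMap.sub_apply, LinearMap.proj_apply, LinearMap.proj_apply,
      h s hs y hy, sub_self]
  have h2 := h1 hx
  rw [LinearMap.mem_ker, LinearMap.sub_apply, LinearMap.proj_apply, LinearMap.proj_apply] at h2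
  exact sub_eq_zero.1 h2

end

theorem card_bits (S : Finset (Fin 11)) :
    (decide (0 ∈ S)).toNat + (decide (1 ∈ S)).toNat + (decide (2 ∈ S)).toNat +
      (decide (3 ∈ S)).toNat + (decide (4 ∈ S)).toNat + (decide (5 ∈ S)).toNat +
      (decide (6 ∈ S)).toNat + (decide (7 ∈ S)).toNat + (decide (8 ∈ S)).toNat +
      (decide (9 ∈ S)).toNat + (decide (10 ∈ S)).toNat = S.card := by
  have h1 : S.card = ∑ s : Fin 11, (decide (s ∈ S)).toNat := by
    have h2 : ∀ s : Fin 11, (decide (s ∈ S)).toNat = if s ∈ S then 1 else 0 := by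
      intro s
      by_cases h : s ∈ S <;> simp [h]
    simp only [h2]
    simp
  rw [h1]
  simp only [Fin.sum_univ_succ, Fin.sum_univ_zero]
  simp only [Fin.succ_zero_eq_one, Fin.isValue, add_zero]
  have e : ∀ (a b : Fin 11), a = b → (decide (a ∈ S)).toNat = (decide (b ∈ S)).toNat :=
    fun a b h => by rw [h]
  simp only [← add_assoc]
  rfl

/-- the value of the form -/
theorem eval_Ft {K : Type u} [Field K] (x : Fin 10 → K) :
    eval x (Ft K) = (x 6 * x 9 - x 7 * x 8) * (x 0 * x 1 * x 2 * x 3 * x 4 * x 5) := by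
  simp only [Ft, map_mul, map_sub, eval_X]

theorem t_FV : S_FV.{u} := by
  intro K _ S hS x hx
  rw [eval_Ft]
  have h := comb (decide (0 ∈ S)) (decide (1 ∈ S)) (decide (2 ∈ S)) (decide (3 ∈ S))
    (decide (4 ∈ S)) (decide (5 ∈ S)) (decide (6 ∈ S)) (decide (7 ∈ S)) (decide (8 ∈ S))
    (decide (9 ∈ S)) (decide (10 ∈ S)) (by rw [card_bits]; exact hS)
  simp only [Bool.or_eq_true, Bool.and_eq_true, Bool.not_eq_true', decide_eq_false_iff_not] at h
  have c0 : ∀ i : Fin 10, (∀ s ∈ S, i ∉ al s) → x i = 0 := fun i hi => co_zero i hi hx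
  have d0 : ∀ s : Fin 11, 0 ∈ al s → s = 2 ∨ s = 3 := by decide
  have d1 : ∀ s : Fin 11, 1 ∈ al s → s = 5 ∨ s = 6 := by decide
  have d2 : ∀ s : Fin 11, 2 ∈ al s → s = 8 ∨ s = 9 := by decide
  have d3 : ∀ s : Fin 11, 3 ∈ al s → s = 3 ∨ s = 4 := by decide
  have d4 : ∀ s : Fin 11, 4 ∈ al s → s = 6 ∨ s = 7 := by decide
  have d5 : ∀ s : Fin 11, 5 ∈ al s → s = 9 ∨ s = 10 := by decide
  have d6 : ∀ s : Fin 11, 6 ∈ al s → s = 0 ∨ s = 2 ∨ s = 8 := by decide
  have d7 : ∀ s : Fin 11, 7 ∈ al s → s = 0 ∨ s = 5 ∨ s = 8 := by decide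
  have d8 : ∀ s : Fin 11, 8 ∈ al s → s = 1 ∨ s = 4 ∨ s = 10 := by decide
  have d9 : ∀ s : Fin 11, 9 ∈ al s → s = 1 ∨ s = 7 ∨ s = 10 := by decide
  rcases h with ((((((((((h | h) | h) | h) | h) | h) | h) | h) | h) | h) | h)
  · rw [c0 0 (fun s hs hi => by rcases d0 s hi with rfl | rfl; exacts [h.1 hs, h.2 hs])]
    ring
  · rw [c0 3 (fun s hs hi => by rcases d3 s hi with rfl | rfl; exacts [h.1 hs, h.2 hs])]
    ring
  · rw [c0 1 (fun s hs hi => by rcases d1 s hi with rfl | rfl; exacts [h.1 hs, h.2 hs])]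
    ring
  · rw [c0 4 (fun s hs hi => by rcases d4 s hi with rfl | rfl; exacts [h.1 hs, h.2 hs])]
    ring
  · rw [c0 2 (fun s hs hi => by rcases d2 s hi with rfl | rfl; exacts [h.1 hs, h.2 hs])]
    ring
  · rw [c0 5 (fun s hs hi => by rcases d5 s hi with rfl | rfl; exacts [h.1 hs, h.2 hs])]
    ring
  · obtain ⟨⟨⟨h0, h2⟩, h5⟩, h8⟩ := h
    rw [c0 6 (fun s hs hi => by rcases d6 s hi with rfl | rfl | rfl; exacts [h0 hs, h2 hs, h8 hs]),
      c0 7 (fun s hs hi => by rcases d7 s hi with rfl | rfl | rfl; exacts [h0 hs, h5 hs, h8 hs])]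
    ring
  · obtain ⟨⟨⟨h1, h4⟩, h7⟩, h10⟩ := h
    rw [c0 8 (fun s hs hi => by rcases d8 s hi with rfl | rfl | rfl; exacts [h1 hs, h4 hs, h10 hs]),
      c0 9 (fun s hs hi => by rcases d9 s hi with rfl | rfl | rfl; exacts [h1 hs, h7 hs, h10 hs])]
    ring
  · obtain ⟨⟨⟨⟨⟨h0, h5⟩, h8⟩, h1⟩, h7⟩, h10⟩ := h
    rw [c0 7 (fun s hs hi => by rcases d7 s hi with rfl | rfl | rfl; exacts [h0 hs, h5 hs, h8 hs]),
      c0 9 (fun s hs hi => by rcases d9 s hi with rfl | rfl | rfl; exacts [h1 hs, h7 hs, h10 hs])]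
    ring
  · obtain ⟨⟨⟨⟨⟨h0, h2⟩, h8⟩, h1⟩, h4⟩, h10⟩ := h
    rw [c0 6 (fun s hs hi => by rcases d6 s hi with rfl | rfl | rfl; exacts [h0 hs, h2 hs, h8 hs]),
      c0 8 (fun s hs hi => by rcases d8 s hi with rfl | rfl | rfl; exacts [h1 hs, h4 hs, h10 hs])]
    ring
  · obtain ⟨⟨⟨⟨⟨h0, h2⟩, h5⟩, h1⟩, h4⟩, h7⟩ := h
    have e1 : x 6 = x 7 := by
      refine co_eq 6 7 (fun s hs y hy => ?_) hx
      by_cases h8 : s = 8
      · exact hy.2.1 h8
      · rw [hy.1 6 (fun hi => by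
            rcases d6 s hi with rfl | rfl | rfl; exacts [h0 hs, h2 hs, h8 rfl]),
          hy.1 7 (fun hi => by
            rcases d7 s hi with rfl | rfl | rfl; exacts [h0 hs, h5 hs, h8 rfl])]
    have e2 : x 8 = x 9 := by
      refine co_eq 8 9 (fun s hs y hy => ?_) hx
      by_cases h8 : s = 10
      · exact hy.2.2 h8
      · rw [hy.1 8 (fun hi => by
            rcases d8 s hi with rfl | rfl | rfl; exacts [h1 hs, h4 hs, h8 rfl]),
          hy.1 9 (fun hi => by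
            rcases d9 s hi with rfl | rfl | rfl; exacts [h1 hs, h7 hs, h8 rfl])]
    rw [e1, e2]
    ring

end Pool.Agent.E8helper71.GC
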