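import Pool.Agent.E8helper64.GC.Stm

/-!
# Project GC: the theta graph, its labelling and its lines
-/

set_option autoImplicit false
set_option linter.unusedVariables false

namespace Pool.Agent.E8helper71.GC

open MvPolynomial Filter
open Pool.Agent.E8helper64.GC

universe u

instance : DecidableRel Gt.Adj := fun u v =>
  inferInstanceAs (Decidable ((u, v) ∈ EL ∨ (v, u) ∈ EL))

/-- the neighbours of a vertex -/
def nb (v : Fin 11) : Finset (Fin 11) := Finset.univ.filter (fun u => Gt.Adj v u)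

theorem nb_eq (v : Fin 11) : Gt.neighborSet v = (nb v : Set (Fin 11)) := by
  ext u
  simp [nb]

theorem dg_eq (v : Fin 11) : dg Gt v = (nb v).card := by
  unfold dg
  rw [nb_eq, Set.ncard_coe_finset]

theorem dgv (v : Fin 11) : dg Gt v = if v = 0 ∨ v = 1 then 3 else 2 := by
  rw [dg_eq]
  revert v
  decide +kernel

theorem dg3 (v : Fin 11) : dg Gt v = 3 ↔ v = 0 ∨ v = 1 := by
  rw [dgv]
  split_ifs with h
  · simp [h]
  · simp [h]

/-- the edges -/
def EF : Finset (Sym2 (Fin 11)) := (EL.map (fun p => s(p.1, p.2))).toFinset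

theorem edge_iff (a b : Fin 11) : Gt.Adj a b ↔ s(a, b) ∈ EF := by
  revert a b
  decide +kernel

theorem edgeSet_eq : Gt.edgeSet = (EF : Set (Sym2 (Fin 11))) := by
  ext e
  induction e with
  | _ a b => rw [SimpleGraph.mem_edgeSet, Finset.mem_coe, edge_iff]

theorem tE_iff (e : Sym2 (Fin 11)) : e ∈ tE Gt ↔ e ∈ EF := by
  have h : e ∈ tE Gt ↔ e ∈ Gt.edgeSet ∨ ∃ v, e = s(v, v) ∧ dg Gt v = 1 := Iff.rfl
  rw [h, edgeSet_eq, Finset.mem_coe]
  constructor
  · rintro (h1 | ⟨v, -, h2⟩)
    · exact h1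
    · exfalso
      rw [dgv] at h2
      split_ifs at h2 <;> omega
  · exact Or.inl

theorem graphOK : GraphOK Gt := by
  refine ⟨?_, ?_, ?_, ?_, ?_⟩
  · have a : ∀ u v, Gt.Adj u v → Gt.Reachable 0 u → Gt.Reachable 0 v :=
      fun u v h1 h2 => h2.trans h1.reachable
    have r0 : Gt.Reachable 0 0 := SimpleGraph.Reachable.refl 0
    have r2 := a 0 2 (by decide) r0
    have r3 := a 2 3 (by decide) r2
    have r4 := a 3 4 (by decide) r3
    have r1 := a 4 1 (by decide) r4
    have r5 := a 0 5 (by decide) r0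
    have r6 := a 5 6 (by decide) r5
    have r7 := a 6 7 (by decide) r6
    have r8 := a 0 8 (by decide) r0
    have r9 := a 8 9 (by decide) r8
    have r10 := a 9 10 (by decide) r9
    have r : ∀ v, Gt.Reachable 0 v := by
      intro v
      fin_cases v
      exacts [r0, r1, r2, r3, r4, r5, r6, r7, r8, r9, r10]
    exact ⟨fun u v => (r u).symm.trans (r v)⟩
  · intro s hs
    rw [SimpleGraph.is3Clique_iff] at hs
    obtain ⟨a, b, c, h1, h2, h3, -⟩ := hs
    have key : ∀ a b c : Fin 11, Gt.Adj a b → Gt.Adj a c → Gt.Adj b c → False := by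
      decide +kernel
    exact key a b c h1 h2 h3
  · intro v
    rw [dgv]
    split_ifs <;> omega
  · refine ⟨2, ?_⟩
    rw [dgv]
    decide
  · intro u v huv hu hv p _
    rw [dg3] at hu hv
    have k1 : ∀ u v : Fin 11, u ≠ v → (u = 0 ∨ u = 1) → (v = 0 ∨ v = 1) → Gt.Adj u v → False := by
      decide +kernel
    have k2 : ∀ u v : Fin 11, u ≠ v → (u = 0 ∨ u = 1) → (v = 0 ∨ v = 1) → ∀ x : Fin 11,
        Gt.Adj u x → Gt.Adj x v → False := by
      decide +kernel
    match p with
    | .nil => exact absurd rfl huv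
    | .cons h1 .nil => exact (k1 u v huv hu hv h1).elim
    | .cons h1 (.cons h2 .nil) => exact (k2 u v huv hu hv _ h1 h2).elim
    | .cons h1 (.cons h2 (.cons h3 q)) =>
      simp only [SimpleGraph.Walk.length_cons]
      omega

/-- the index of a label `e_i` -/
def on : Lb 10 → Option (Fin 10)
  | .one i => some i
  | .dif _ _ => none

/-- the indices of a label `e_j - e_k` -/
def df : Lb 10 → Option (Fin 10 × Fin 10)
  | .one _ => none
  | .dif j k => some (j, k)

/-- `i` occurs in the label -/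
def oc (l : Lb 10) (i : Fin 10) : Bool :=
  match l with
  | .one j => i == j
  | .dif j k => i == j || i == k

theorem oc_iff (l : Lb 10) (i : Fin 10) :
    (l = .one i ∨ (∃ j, l = .dif i j) ∨ ∃ j, l = .dif j i) ↔ oc l i = true := by
  cases l with
  | one j =>
    simp only [oc, Lb.one.injEq, reduceCtorEq, exists_false, or_false, beq_iff_eq]
    exact ⟨fun h => h.symm, fun h => h.symm⟩
  | dif j k =>
    simp only [oc, Lb.dif.injEq, reduceCtorEq, false_or, Bool.or_eq_true, beq_iff_eq]
    constructor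
    · rintro (⟨m, h1, h2⟩ | ⟨m, h1, h2⟩)
      · exact Or.inl h1.symm
      · exact Or.inr h2.symm
    · rintro (h | h)
      · exact Or.inl ⟨k, h.symm, rfl⟩
      · exact Or.inr ⟨j, rfl, h.symm⟩

theorem labelling : Labelling Gt labt := by
  refine ⟨?_, ?_, ?_⟩
  · intro v hv
    rw [dg3] at hv
    rcases hv with rfl | rfl
    · refine ⟨2, 5, 8, ?_, by decide, by decide, by decide, 6, 7, by decide, rfl, rfl, rfl⟩
      rw [nb_eq]
      have : nb 0 = {2, 5, 8} := by decide +kernel
      rw [this]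
      push_cast
      rfl
    · refine ⟨4, 7, 10, ?_, by decide, by decide, by decide, 8, 9, by decide, rfl, rfl, rfl⟩
      rw [nb_eq]
      have : nb 1 = {4, 7, 10} := by decide +kernel
      rw [this]
      push_cast
      rfl
  · intro e he h
    rw [tE_iff] at he
    have key : ∀ e ∈ EF, (0 ∈ e) ∨ (1 ∈ e) ∨ (on (labt e)).isSome = true := by decide +kernel
    rcases key e he with h1 | h1 | h1
    · exact absurd ((dg3 0).2 (Or.inl rfl)) (h 0 h1)
    · exact absurd ((dg3 1).2 (Or.inr rfl)) (h 1 h1)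
    · cases hl : labt e with
      | one i => exact ⟨i, rfl⟩
      | dif j k => rw [hl] at h1; exact absurd h1 (by simp [on])
  · intro e he e' he' i h1 h2
    rw [tE_iff] at he he'
    have key : ∀ e ∈ EF, ∀ e' ∈ EF, on (labt e) = on (labt e') → on (labt e) ≠ none → e = e' := by
      decide +kernel
    exact key e he e' he' (by rw [h1, h2]) (by rw [h1]; simp [on])

theorem occ_iff (v : Fin 11) (i : Fin 10) : Occ Gt labt v i ↔ i ∈ al v := by
  have key : ∀ (v : Fin 11) (i : Fin 10), (∃ e ∈ EF, v ∈ e ∧ oc (labt e) i = true) ↔ i ∈ al v := by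
    decide +kernel
  rw [← key]
  unfold Occ
  simp only [tE_iff, oc_iff]

theorem line_eq (K : Type u) [Field K] (v : Fin 11) : line K Gt labt v = Lt K v := by
  ext x
  have h1 : x ∈ line K Gt labt v ↔ (∀ i, ¬ Occ Gt labt v i → x i = 0) ∧
    (dg Gt v ≠ 3 → ∀ e ∈ tE Gt, v ∈ e → ∀ j k, labt e = .dif j k → x j - x k = 0) := Iff.rfl
  have h2 : x ∈ Lt K v ↔ (∀ i, i ∉ al v → x i = 0) ∧ (v = 8 → x 6 = x 7) ∧ (v = 10 → x 8 = x 9) :=
    Iff.rfl
  rw [h1, h2]
  simp only [occ_iff]
  refine and_congr_right fun _ => ?_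
  constructor
  · intro h
    constructor
    · rintro rfl
      exact sub_eq_zero.1 (h (by rw [Ne, dg3]; decide) s(0, 8) (by rw [tE_iff]; decide +kernel)
        (by decide) 6 7 rfl)
    · rintro rfl
      exact sub_eq_zero.1 (h (by rw [Ne, dg3]; decide) s(1, 10) (by rw [tE_iff]; decide +kernel)
        (by decide) 8 9 rfl)
  · rintro ⟨h3, h4⟩ hv e he hve j k hl
    rw [Ne, dg3, not_or] at hv
    rw [tE_iff] at he
    have key : ∀ v : Fin 11, v ≠ 0 → v ≠ 1 → ∀ e ∈ EF, v ∈ e → df (labt e) = none ∨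
        (v = 8 ∧ df (labt e) = some (6, 7)) ∨ (v = 10 ∧ df (labt e) = some (8, 9)) := by
      decide +kernel
    have h5 : df (labt e) = some (j, k) := by rw [hl]; rfl
    rcases key v hv.1 hv.2 e he hve with h6 | ⟨h6, h7⟩ | ⟨h6, h7⟩
    · rw [h5] at h6
      exact absurd h6 (by simp)
    · rw [h5, Option.some.injEq, Prod.mk.injEq] at h7
      rw [h7.1, h7.2, h3 h6, sub_self]
    · rw [h5, Option.some.injEq, Prod.mk.injEq] at h7
      rw [h7.1, h7.2, h4 h6, sub_self]

theorem t_GRAPH : S_GRAPH.{u} := by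
  refine ⟨graphOK, labelling, ?_, fun K _ v => line_eq K v⟩
  rw [edgeSet_eq, Set.ncard_coe_finset]
  decide +kernel

end Pool.Agent.E8helper71.GC
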